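import Pool.Agent.H27.L1.H34.GZ.Targets2

/-!
Row ALZ of the board gz_modules (MP_52e316_nt): integer matrices, real matrices, residues.
-/

set_option autoImplicit false

namespace Pool.Agent.H27.L1.H64.GZ

open Pool.Agent.H27.L1.H34.GM Pool.Agent.H27.L1.H34.GZ

theorem cR_eq {m : ℕ} (α : ZM m) : cR α = (Int.castRingHom ℝ).mapMatrix α := rfl

theorem cQ_eq {m q : ℕ} (α : ZM m) : cQ q α = (Int.castRingHom (ZMod q)).mapMatrix α := rfl

theorem unit_iff {m q : ℕ} (x : RM m q) : IsUnit x ↔ IsUnit x.det :=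
  Matrix.isUnit_iff_isUnit_det x

theorem unit_mul {m q : ℕ} (x y : RM m q) : IsUnit (x * y) ↔ IsUnit x ∧ IsUnit y := by
  rw [unit_iff, unit_iff, unit_iff, Matrix.det_mul, IsUnit.mul_iff]

theorem det_cR {m : ℕ} (α : ZM m) : (cR α).det = ((α.det : ℤ) : ℝ) := by
  rw [cR_eq]
  exact (RingHom.map_det (Int.castRingHom ℝ) α).symm

theorem det_cQ {m q : ℕ} (α : ZM m) : (cQ q α).det = ((α.det : ℤ) : ZMod q) := by
  rw [cQ_eq]
  exact (RingHom.map_det (Int.castRingHom (ZMod q)) α).symm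

theorem unit_cQ {m q : ℕ} (α : ZM m) : IsUnit (cQ q α) ↔ α.det.natAbs.Coprime q := by
  rw [unit_iff, det_cQ]
  have h : ((α.det : ℤ) : ZMod q) = ((α.det.natAbs : ℕ) : ZMod q) ∨
      ((α.det : ℤ) : ZMod q) = -((α.det.natAbs : ℕ) : ZMod q) := by
    rcases Int.natAbs_eq α.det with h | h
    · left
      conv_lhs => rw [h]
      exact Int.cast_natCast _
    · right
      conv_lhs => rw [h]
      rw [Int.cast_neg, Int.cast_natCast]
  rcases h with h | h
  · rw [h]
    exact ZMod.isUnit_iff_coprime _ _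
  · rw [h, IsUnit.neg_iff]
    exact ZMod.isUnit_iff_coprime _ _

theorem pf_ALZ : T_ALZ := by
  intro m q hm hq _
  refine ⟨⟨⟨?_, fun α β => ⟨?_, ?_, ?_⟩⟩, fun α => ⟨det_cR α, ?_⟩⟩,
    ⟨?_, ?_, fun α β => ⟨?_, ?_⟩, fun x => ?_, fun α => ?_⟩, ?_, unit_cQ, fun γ => ?_,
    unit_mul, fun x hx => ⟨?_, ?_, ?_⟩⟩
  · rw [cR_eq, map_one]
  · simp only [cR_eq, map_mul]
  · simp only [cR_eq, map_add]
  · intro h
    ext i j
    have h1 : cR α i j = cR β i j := by rw [h]
    simpa [cR] using h1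
  · rw [det_cR, Nat.cast_natAbs, Int.cast_abs]
  · rw [cQ_eq, map_one]
  · rw [cQ_eq, map_zero]
  · simp only [cQ_eq, map_mul]
  · simp only [cQ_eq, map_add]
  · refine ⟨x.map fun a => (a.val : ℤ), ?_⟩
    ext i j
    simp [cQ]
  · constructor
    · intro h
      have h1 : ∀ i j, ∃ w : ℤ, α i j = (q : ℤ) * w := by
        intro i j
        have h2 : cQ q α i j = 0 := by rw [h]; rfl
        have h3 : ((α i j : ℤ) : ZMod q) = 0 := h2
        exact (ZMod.intCast_zmod_eq_zero_iff_dvd _ _).1 h3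
      choose w hw using h1
      refine ⟨Matrix.of w, ?_⟩
      ext i j
      rw [hw i j]
      rfl
    · rintro ⟨w, rfl⟩
      ext i j
      have h1 : cQ q ((q : ℤ) • w) i j = (((q : ℤ) * w i j : ℤ) : ZMod q) := rfl
      rw [h1, Int.cast_mul, Int.cast_natCast, ZMod.natCast_self, zero_mul]
      rfl
  · have h1 : Fintype.card (RM m q) = Fintype.card (Fin m → Fin m → ZMod q) :=
      Fintype.card_congr (Matrix.of (m := Fin m) (n := Fin m) (α := ZMod q)).symm
    rw [h1]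
    simp only [Fintype.card_fun, Fintype.card_fin, ZMod.card]
    rw [← pow_mul, pow_two]
  · rw [Matrix.isUnit_iff_isUnit_det, Int.isUnit_iff_natAbs_eq]
  · exact Ring.inverse_mul_cancel x hx
  · exact Ring.mul_inverse_cancel x hx
  · exact hx.ringInverse

end Pool.Agent.H27.L1.H64.GZ
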